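import Pool.Agent.Helper1.FF2.Goals2
import Pool.Agent.Helper32.FF.StmtAvoid

/-!
# G0. Rerouting inside a subgraph which contains the boundaries of the obstacles
-/

namespace Pool.Agent.Helper68.FF

open Finset
open Pool.Agent.Helper34.FF hiding StmtG
open Pool.Agent.Helper32.FF
open Pool.Agent.Helper1.FF2
open scoped symmDiff Classical

theorem mainIn {V F : Type} [Fintype V] [Fintype F] (hAlg : StmtAlg) (hTri : StmtTri) (T : Tri V F)
    (hS : T.Sphere) {Ds : Finset (Finset F)} (hO : T.Obst Ds) (H : SimpleGraph V) (hH : H ≤ T.G)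
    (hD : ∀ X ∈ Ds, ∀ e ∈ T.bdry X, e ∈ H.edgeSet) :
    ∀ k : ℕ, ∀ a x y, IsW H k a x y → (∀ X ∈ Ds, x ∉ T.Vin X) → (∀ X ∈ Ds, y ∉ T.Vin X) →
      Within (H ⊓ T.avoid Ds) k x y := by
  intro k
  induction k using Nat.strong_induction_on with
  | _ k ih =>
  intro a x y hw hx hy
  obtain ⟨h0, hk, ha⟩ := hw
  by_cases hk0 : k = 0
  · subst hk0
    exact ⟨0, le_refl _, a, h0, hk, fun i hi => absurd hi (by omega)⟩
  have hvin := fun X => (hAlg V F T).2.2.2.2.2.2 X
  by_cases hbad : ∃ X ∈ Ds, s(a 0, a (0 + 1)) ∈ T.inn X
  · obtain ⟨X, hX, hb⟩ := hbad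
    -- the number of edges of the first part
    let P : ℕ → Prop := fun p => p = k ∨ s(a p, a (p + 1)) ∉ T.inn X
    have hP : ∃ p, P p := ⟨k, Or.inl rfl⟩
    set p := Nat.find hP with hp
    have hp1 : P p := Nat.find_spec hP
    have hpk : p ≤ k := Nat.find_min' hP (Or.inl rfl)
    have hp2 : ∀ i < p, s(a i, a (i + 1)) ∈ T.inn X := by
      intro i hi
      have := Nat.find_min hP hi
      by_contra hc
      exact this (Or.inr hc)
    have hp0 : 0 < p := by
      rcases Nat.eq_zero_or_pos p with h | h
      · exfalso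
        rw [h] at hp1
        rcases hp1 with h' | h'
        · exact hk0 h'.symm
        · exact h' hb
      · exact h
    -- the vertex at `p`
    have hpe : s(a (p - 1), a p) ∈ T.inn X := by
      have := hp2 (p - 1) (by omega)
      have e : p - 1 + 1 = p := by omega
      rwa [e] at this
    have hpX : a p ∉ T.Vin X := by
      rcases hp1 with h' | h'
      · rw [h', hk]
        exact hy X hX
      · intro hc
        rcases Nat.lt_or_ge p k with h | h
        · exact h' (hvin X (a p) hc _ (by simpa using hH (ha p h)) (by simp))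
        · have : p = k := by omega
          rw [this, hk] at hc
          exact hy X hX hc
    obtain ⟨f, hfX, hf⟩ := on_face T hpe (v := a p) (by simp)
    have hpY : ∀ Y ∈ Ds, a p ∉ T.Vin Y := by
      intro Y hY hc
      by_cases hXY : X = Y
      · subst hXY
        exact hpX hc
      · have : f ∈ Y := by
          simp only [Tri.Vin, mem_filter, mem_univ, true_and] at hc
          exact hc f hf
        exact Finset.disjoint_left.mp (hO.2 X hX Y hY hXY) hfX this
    have hpb : a p ∈ T.Vbd X := by
      rcases (hTri V F T hS).1 X (a p) with h | h | h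
      · exact absurd h hpX
      · exact h
      · exfalso
        simp only [Tri.Vin, mem_filter, mem_univ, true_and, mem_compl] at h
        exact h f hf hfX
    obtain ⟨g, hgX, hg⟩ := on_face T hb (v := a 0) (by simp)
    have hxb : x ∈ T.Vbd X := by
      rcases (hTri V F T hS).1 X x with h | h | h
      · exact absurd h (hx X hX)
      · exact h
      · exfalso
        simp only [Tri.Vin, mem_filter, mem_univ, true_and, mem_compl] at h
        rw [h0] at hg
        exact h g hg hgX
    obtain ⟨k', hk', a', hw', hb'⟩ := (hO.1 X hX).2 p a x (a p) hxb hpb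
      ⟨h0, rfl, fun i hi => hH (ha i (by omega))⟩
      (fun i hi => mem_union_left _ (hp2 i hi))
    have hA : Within (H ⊓ T.avoid Ds) p x (a p) :=
      ⟨k', hk', a', hw'.1, hw'.2.1, fun i hi =>
        ⟨by simpa using hD X hX _ (hb' i hi), bdry_avoid hAlg T hO hX (hb' i hi)⟩⟩
    have hB := ih (k - p) (by omega) (fun i => a (i + p)) (a p) y
      ⟨by simp, by
        have e : k - p + p = k := by omega
        simp only [e]
        exact hk, fun i hi => by
        have := ha (i + p) (by omega)
        have e : i + p + 1 = i + 1 + p := by omega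
        rwa [e] at this⟩ hpY hy
    have := within_trans hA hB
    have e : p + (k - p) = k := by omega
    rwa [e] at this
  · have hA : Within (H ⊓ T.avoid Ds) 1 x (a 1) := by
      refine ⟨1, le_refl _, a, h0, rfl, ?_⟩
      intro i hi
      have : i = 0 := by omega
      subst this
      refine ⟨ha 0 (by omega), hH (ha 0 (by omega)), fun X hX hc => hbad ⟨X, hX, hc⟩⟩
    have h1 : ∀ X ∈ Ds, a 1 ∉ T.Vin X := by
      intro X hX hc
      exact hbad ⟨X, hX, hvin X (a 1) hc _ (by simpa using hH (ha 0 (by omega))) (by simp)⟩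
    have hB := ih (k - 1) (by omega) (fun i => a (i + 1)) (a 1) y
      ⟨by simp, by
        have e : k - 1 + 1 = k := by omega
        simp only [e]
        exact hk, fun i hi => ha (i + 1) (by omega)⟩ h1 hy
    have := within_trans hA hB
    have e : 1 + (k - 1) = k := by omega
    rwa [e] at this


/-- G0. -/
theorem pf_StmtAvoidIn (hAlg : StmtAlg) (hTri : StmtTri) : StmtAvoidIn := by
  intro V F _ _ T hS Ds H hO hH hD t u v hu hv hW
  obtain ⟨k, hk, a, hw⟩ := hW
  obtain ⟨k', hk', r⟩ := mainIn hAlg hTri T hS hO H hH hD k a u v hw hu hv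
  exact ⟨k', le_trans hk' hk, r⟩

end Pool.Agent.Helper68.FF
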